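import Pool.Agent.X79.EQP.Stm
import Pool.Agent.X79.EQ.Gen

/-!
# Products of counting problems
-/

set_option autoImplicit false

namespace Pool.Agent.X79.EQP

open Filter MeasureTheory Set Topology Pool.Agent.X79.EQ

/-- the constants -/
def FC (X : Type) : Submodule ℝ (X → ℝ) where
  carrier := {f | ∃ c : ℝ, f = fun _ => c}
  zero_mem' := ⟨0, rfl⟩
  add_mem' := by
    rintro f g ⟨c, rfl⟩ ⟨d, rfl⟩
    exact ⟨c + d, rfl⟩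
  smul_mem' := by
    rintro a f ⟨c, rfl⟩
    exact ⟨a * c, rfl⟩

lemma goodC {X : Type} {h w : X → ℝ} {b : ℕ} (hW : ∃ W : ℝ, ∀ x, |w x| ≤ W)
    (hl : ∃ a : ℝ, Tendsto (fun u => cnt h w (fun _ => 0) u / nu b u) atTop (𝓝 a)) :
    Good h (FC X) b w := by
  refine ⟨hW, fun f hf => ?_⟩
  obtain ⟨c, rfl⟩ := hf
  obtain ⟨a, ha⟩ := hl
  have h1 : Tendsto (fun u : ℝ => cnt h w (fun _ => 0) (u + c) / nu b (u + c)) atTop (𝓝 a) :=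
    ha.comp (tendsto_atTop_add_const_right atTop c tendsto_id)
  have h2 := nu_ratio b (-c)
  have h3 := h1.mul h2
  refine ⟨_, h3.congr' ?_⟩
  filter_upwards [eventually_gt_atTop 0, eventually_gt_atTop (-c)] with u hu hu'
  have e : cnt h w (fun _ => c) u = cnt h w (fun _ => 0) (u + c) := by
    unfold cnt
    simp only [add_zero]
  rw [e, sub_neg_eq_add]
  have h4 := (nu_pos (b := b) (show 0 < u + c by linarith)).ne'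
  rw [div_mul_div_comm, mul_comm (nu b (u + c)), mul_div_mul_right _ _ h4]

lemma fin_prod {X₁ X₂ : Type} {h₁ : X₁ → ℝ} {h₂ : X₂ → ℝ} (hf1 : Fin' h₁) (hf2 : Fin' h₂) :
    Fin' (fun x : X₁ × X₂ => h₁ x.1 + h₂ x.2) := by
  obtain ⟨m₁, hm₁⟩ := exists_min hf1
  obtain ⟨m₂, hm₂⟩ := exists_min hf2
  intro u
  refine ((hf1 (u - m₂)).prod (hf2 (u - m₁))).subset ?_
  rintro ⟨x, y⟩ hxy
  have h : h₁ x + h₂ y ≤ u := hxy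
  refine ⟨?_, ?_⟩
  · show h₁ x ≤ u - m₂
    linarith [hm₂ y]
  · show h₂ y ≤ u - m₁
    linarith [hm₁ x]

section

variable {X₁ X₂ : Type} {h₁ : X₁ → ℝ} {h₂ : X₂ → ℝ} {F₁ : Submodule ℝ (X₁ → ℝ)}
  {F₂ : Submodule ℝ (X₂ → ℝ)} {b₁ b₂ : ℕ} (hC : S_CONV) (H₁ : Hyp h₁ F₁ b₁) (H₂ : Hyp h₂ F₂ b₂)

include hC H₁ H₂ in
lemma rect_lim {w₁ : X₁ → ℝ} {w₂ : X₂ → ℝ} (hw₁ : Good h₁ F₁ b₁ w₁) (hw₂ : Good h₂ F₂ b₂ w₂)
    (h0₁ : ∀ x, 0 ≤ w₁ x) (h0₂ : ∀ x, 0 ≤ w₂ x) :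
    Tendsto (fun u => cnt (fun x : X₁ × X₂ => h₁ x.1 + h₂ x.2) (fun x => w₁ x.1 * w₂ x.2)
      (fun _ => 0) u / nu (b₁ + b₂ + 1) u) atTop (𝓝 (Lim h₁ b₁ w₁ * Lim h₂ b₂ w₂ *
        ((b₁.factorial : ℝ) * b₂.factorial / (b₁ + b₂ + 1).factorial))) :=
  hC X₁ X₂ h₁ w₁ h₂ w₂ b₁ b₂ _ _ H₁.fin H₂.fin h0₁ h0₂ (lim_zero H₁ hw₁) (lim_zero H₂ hw₂)

include hC H₁ H₂ in
lemma rect0 {w₁ : X₁ → ℝ} {w₂ : X₂ → ℝ} (hw₁ : Good h₁ F₁ b₁ w₁) (hw₂ : Good h₂ F₂ b₂ w₂)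
    (h0₁ : ∀ x, 0 ≤ w₁ x) (h0₂ : ∀ x, 0 ≤ w₂ x) :
    Good (fun x : X₁ × X₂ => h₁ x.1 + h₂ x.2) (FC (X₁ × X₂)) (b₁ + b₂ + 1)
      (fun x => w₁ x.1 * w₂ x.2) := by
  refine goodC ?_ ⟨_, rect_lim hC H₁ H₂ hw₁ hw₂ h0₁ h0₂⟩
  obtain ⟨W₁, hW₁⟩ := hw₁.1
  obtain ⟨W₂, hW₂⟩ := hw₂.1
  refine ⟨|W₁| * |W₂|, fun x => ?_⟩
  rw [abs_mul]
  exact mul_le_mul ((hW₁ _).trans (le_abs_self _)) ((hW₂ _).trans (le_abs_self _)) (abs_nonneg _)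
    (abs_nonneg _)

include hC H₁ H₂ in
lemma hypC : Hyp (fun x : X₁ × X₂ => h₁ x.1 + h₂ x.2) (FC (X₁ × X₂)) (b₁ + b₂ + 1) where
  fin := fin_prod H₁.fin H₂.fin
  const := ⟨1, rfl⟩
  bdd := by
    rintro f ⟨c, rfl⟩
    exact ⟨|c|, fun _ => le_rfl⟩
  lim := by
    have h1 := rect0 hC H₁ H₂ (good_one H₁) (good_one H₂) (fun _ => zero_le_one)
      (fun _ => zero_le_one)
    simp only [mul_one] at h1
    exact h1.2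

include hC H₁ H₂ in
lemma rect {w₁ : X₁ → ℝ} {w₂ : X₂ → ℝ} (hw₁ : Good h₁ F₁ b₁ w₁) (hw₂ : Good h₂ F₂ b₂ w₂) :
    Good (fun x : X₁ × X₂ => h₁ x.1 + h₂ x.2) (FC (X₁ × X₂)) (b₁ + b₂ + 1)
      (fun x => w₁ x.1 * w₂ x.2) := by
  have HC := hypC hC H₁ H₂
  obtain ⟨W₁, hW₁⟩ := hw₁.1
  obtain ⟨W₂, hW₂⟩ := hw₂.1
  have n₁ : ∀ x, 0 ≤ w₁ x + |W₁| := fun x => by
    have := (abs_le.1 ((hW₁ x).trans (le_abs_self W₁))).1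
    linarith
  have n₂ : ∀ x, 0 ≤ w₂ x + |W₂| := fun x => by
    have := (abs_le.1 ((hW₂ x).trans (le_abs_self W₂))).1
    linarith
  have g₁ := hw₁.add H₁ (good_const H₁ |W₁|)
  have g₂ := hw₂.add H₂ (good_const H₂ |W₂|)
  have r1 := rect0 hC H₁ H₂ g₁ g₂ n₁ n₂
  have r2 := rect0 hC H₁ H₂ (good_const H₁ |W₁|) g₂ (fun _ => abs_nonneg _) n₂
  have r3 := rect0 hC H₁ H₂ g₁ (good_const H₂ |W₂|) n₁ (fun _ => abs_nonneg _)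
  have r4 := rect0 hC H₁ H₂ (good_const H₁ |W₁|) (good_const H₂ |W₂|) (fun _ => abs_nonneg _)
    (fun _ => abs_nonneg _)
  have r5 := ((r1.add HC (r2.smul HC (-1))).add HC (r3.smul HC (-1))).add HC r4
  have e : (fun x : X₁ × X₂ => w₁ x.1 * w₂ x.2) = fun x => (w₁ x.1 + |W₁|) * (w₂ x.2 + |W₂|) +
      -1 * (|W₁| * (w₂ x.2 + |W₂|)) + -1 * ((w₁ x.1 + |W₁|) * |W₂|) + |W₁| * |W₂| := by
    funext x
    ring
  rw [e]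
  exact r5

include hC H₁ H₂ in
/-- continuous functions of elements of `F₁` and `F₂` -/
lemma prod_good (hSW : S_SW) {k₁ k₂ : ℕ} {g₁ : Fin k₁ → X₁ → ℝ} {g₂ : Fin k₂ → X₂ → ℝ}
    (hg₁ : ∀ i, g₁ i ∈ F₁) (hg₂ : ∀ i, g₂ i ∈ F₂) {Φ : (Fin k₁ → ℝ) × (Fin k₂ → ℝ) → ℝ}
    (hΦ : Continuous Φ) : Good (fun x : X₁ × X₂ => h₁ x.1 + h₂ x.2) (FC (X₁ × X₂)) (b₁ + b₂ + 1)
      (fun x => Φ (fun i => g₁ i x.1, fun i => g₂ i x.2)) := by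
  have HC := hypC hC H₁ H₂
  choose M₁ hM₁ using fun i => H₁.bdd (g₁ i) (hg₁ i)
  choose M₂ hM₂ using fun i => H₂.bdd (g₂ i) (hg₂ i)
  have b1 : ∀ i x, |g₁ i x| ≤ ∑ i, |M₁ i| + ∑ i, |M₂ i| := fun i x => by
    have h1 := Finset.single_le_sum (f := fun i => |M₁ i|) (fun _ _ => abs_nonneg _)
      (Finset.mem_univ i)
    have h2 : 0 ≤ ∑ i, |M₂ i| := Finset.sum_nonneg fun _ _ => abs_nonneg _
    have h3 := (hM₁ i x).trans (le_abs_self _)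
    linarith
  have b2 : ∀ i x, |g₂ i x| ≤ ∑ i, |M₁ i| + ∑ i, |M₂ i| := fun i x => by
    have h1 := Finset.single_le_sum (f := fun i => |M₂ i|) (fun _ _ => abs_nonneg _)
      (Finset.mem_univ i)
    have h2 : 0 ≤ ∑ i, |M₁ i| := Finset.sum_nonneg fun _ _ => abs_nonneg _
    have h3 := (hM₂ i x).trans (le_abs_self _)
    linarith
  refine hSW X₁ X₂ (Good (fun x : X₁ × X₂ => h₁ x.1 + h₂ x.2) (FC (X₁ × X₂)) (b₁ + b₂ + 1)) k₁ k₂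
    g₁ g₂ _ b1 b2 (fun w w' hw hw' => hw.add HC hw') (fun w hw c => hw.smul HC c)
    (fun w hb hu => Good.unif HC hb hu) (fun Φ₁ Φ₂ c₁ c₂ => ?_) Φ hΦ
  exact rect hC H₁ H₂ (good_cont H₁ hg₁ c₁) (good_cont H₂ hg₂ c₂)

include hC H₁ H₂ in
/-- the asymptotics with positive constant -/
lemma final {f₀ : X₁ × X₂ → ℝ} {M : ℝ} (hM : ∀ x, |f₀ x| ≤ M)
    (p₁ : 0 < Lim h₁ b₁ (fun _ => 1)) (p₂ : 0 < Lim h₂ b₂ (fun _ => 1))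
    (hΨ : ∀ Ψ : ℝ → ℝ, Continuous Ψ → Good (fun x : X₁ × X₂ => h₁ x.1 + h₂ x.2) (FC (X₁ × X₂))
      (b₁ + b₂ + 1) (fun x => Ψ (f₀ x))) :
    ∃ c : ℝ, 0 < c ∧ Tendsto (fun u => cnt (fun x : X₁ × X₂ => h₁ x.1 + h₂ x.2) (fun _ => 1) f₀ u /
      nu (b₁ + b₂ + 1) u) atTop (𝓝 c) := by
  have HC := hypC hC H₁ H₂
  have hM' : ∀ x, |f₀ x| ≤ |M| := fun x => (hM x).trans (le_abs_self _)
  have h1 := gen_nonneg HC (w := fun _ => 1) (abs_nonneg M) hM' (fun _ => zero_le_one)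
    (fun Ψ hc => by simpa only [one_mul] using hΨ Ψ hc)
  refine ⟨_, ?_, h1⟩
  have h2 : Lim (fun x : X₁ × X₂ => h₁ x.1 + h₂ x.2) (b₁ + b₂ + 1) (fun _ => 1) =
      Lim h₁ b₁ (fun _ => 1) * Lim h₂ b₂ (fun _ => 1) *
        ((b₁.factorial : ℝ) * b₂.factorial / (b₁ + b₂ + 1).factorial) := by
    have h3 := rect_lim hC H₁ H₂ (good_one H₁) (good_one H₂) (fun _ => zero_le_one)
      (fun _ => zero_le_one)
    simp only [mul_one] at h3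
    exact tendsto_nhds_unique (lim_zero HC (good_one HC)) h3
  have h3 : 0 < Lim (fun x : X₁ × X₂ => h₁ x.1 + h₂ x.2) (b₁ + b₂ + 1) (fun _ => 1) := by
    rw [h2]
    positivity
  have h4 : Real.exp (-|M|) * Lim (fun x : X₁ × X₂ => h₁ x.1 + h₂ x.2) (b₁ + b₂ + 1) (fun _ => 1) ≤
      Lim (fun x : X₁ × X₂ => h₁ x.1 + h₂ x.2) (b₁ + b₂ + 1) (fun x => 1 * Real.exp (f₀ x)) := by
    rw [← Lim_smul HC (good_one HC)]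
    refine Lim_mono HC ((good_one HC).smul HC _) ?_ fun x => ?_
    · simpa only [one_mul] using hΨ Real.exp Real.continuous_exp
    · rw [mul_one, one_mul]
      exact Real.exp_le_exp.2 (abs_le.1 (hM' x)).1
  exact lt_of_lt_of_le (mul_pos (Real.exp_pos _) h3) h4

end

end Pool.Agent.X79.EQP
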