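import Pool.Agent.X79.EQ.Count

/-!
# Products of counting problems: statements of the parts (helper79)
-/

set_option autoImplicit false

namespace Pool.Agent.X79.EQP

open Filter MeasureTheory Set Topology Pool.Agent.X79.EQ

/-- L1. Divide by `nu (b+1) u = e^u u^(b+1)` and substitute `v = u s`: the integrand becomes
`U(u(1-s)) / (e^(u(1-s)) u^b)`, which tends to `a (1-s)^b` for `s < 1`, to `0` for `s > 1`; dominated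
by `C · 1[s ≤ 1 + |u₀|]` for `u ≥ 1` (`EQ.growth`). -/
def S_L1 : Prop := ∀ (U : ℝ → ℝ) (b : ℕ) (a u₀ : ℝ), Monotone U → (∀ u, u < u₀ → U u = 0) →
  Tendsto (fun u => U u / nu b u) atTop (𝓝 a) →
  Tendsto (fun u => (∫ v in Ioi (0 : ℝ), Real.exp v * U (u - v)) / nu (b + 1) u) atTop
    (𝓝 (a / (b + 1)))

/-- CONV, from L1. Put `θ 0 = 1[v ≥ 0]`, `θ (j+1) = I (θ j)` with `(I U) u = ∫_0^∞ e^v U(u - v) dv`.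
`A j u = ∑ w₁ θ j (u - h₁)`; then `A 0 = cnt h₁ w₁ 0`, `A (j+1) = I (A j)`, so by L1 `A (b₂+1) / nu
(b₁+b₂+1) → a₁ b₁! / (b₁+b₂+1)!`, and `θ (b₂+1) / nu b₂ → 1 / b₂!` (`θ 1 v = e^v - 1`). With
`B = cnt h₂ w₂ 0`: `|B v - a₂ b₂! θ (b₂+1) v| ≤ ε θ (b₂+1) v + C θ 0 (v - m)` for all `v`, and the
left side of the assertion is `∑ w₁ B (u - h₁) / nu (b₁+b₂+1) u`. -/
def S_CONV : Prop := ∀ (X₁ X₂ : Type) (h₁ w₁ : X₁ → ℝ) (h₂ w₂ : X₂ → ℝ) (b₁ b₂ : ℕ) (a₁ a₂ : ℝ),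
  Fin' h₁ → Fin' h₂ → (∀ x, 0 ≤ w₁ x) → (∀ x, 0 ≤ w₂ x) →
  Tendsto (fun u => cnt h₁ w₁ (fun _ => 0) u / nu b₁ u) atTop (𝓝 a₁) →
  Tendsto (fun u => cnt h₂ w₂ (fun _ => 0) u / nu b₂ u) atTop (𝓝 a₂) →
  Tendsto (fun u => cnt (fun x : X₁ × X₂ => h₁ x.1 + h₂ x.2) (fun x => w₁ x.1 * w₂ x.2)
    (fun _ => 0) u / nu (b₁ + b₂ + 1) u) atTop
    (𝓝 (a₁ * a₂ * ((b₁.factorial : ℝ) * b₂.factorial / (b₁ + b₂ + 1).factorial)))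

/-- SW: Stone-Weierstrass for functions of two groups of bounded functions (compare
`EQ.Good.mul_cont` in `Pool/Agent/X79/EQ/Good.lean`: adjoin the coordinate functions in `C(B, ℝ)`). -/
def S_SW : Prop := ∀ (X₁ X₂ : Type) (G : (X₁ × X₂ → ℝ) → Prop) (k₁ k₂ : ℕ)
  (g₁ : Fin k₁ → X₁ → ℝ) (g₂ : Fin k₂ → X₂ → ℝ) (M : ℝ),
  (∀ i x, |g₁ i x| ≤ M) → (∀ i x, |g₂ i x| ≤ M) →
  (∀ w w', G w → G w' → G (fun x => w x + w' x)) → (∀ w, G w → ∀ c : ℝ, G (fun x => c * w x)) →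
  (∀ w, (∃ W : ℝ, ∀ x, |w x| ≤ W) →
    (∀ ε : ℝ, 0 < ε → ∃ w', G w' ∧ ∀ x, |w x - w' x| ≤ ε) → G w) →
  (∀ (Φ₁ : (Fin k₁ → ℝ) → ℝ) (Φ₂ : (Fin k₂ → ℝ) → ℝ), Continuous Φ₁ → Continuous Φ₂ →
    G (fun x => Φ₁ (fun i => g₁ i x.1) * Φ₂ (fun i => g₂ i x.2))) →
  ∀ Φ : (Fin k₁ → ℝ) × (Fin k₂ → ℝ) → ℝ, Continuous Φ →
    G (fun x => Φ (fun i => g₁ i x.1, fun i => g₂ i x.2))

end Pool.Agent.X79.EQP
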